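import Mathlib

open Finset Filter
open scoped Nat

namespace Pool.Agent.Results.MP_edde63_nt.FactorialParts

/-- `m` is a partition of `n` with parts in `A` and multiplicities in `M`: the finitely supported
family `m` gives every `a ∈ A` its multiplicity, every non-zero multiplicity lies in `M`, and
`∑ a, m a * a = n`. -/
def IsPartition (A M : Set ℕ) (n : ℕ) (m : A →₀ ℕ) : Prop :=
  (∀ a : A, m a ≠ 0 → m a ∈ M) ∧ (m.sum fun a k => k * (a : ℕ)) = n

/-- `p_{A,M}(n)`: the number of partitions of `n` with parts in `A` and multiplicities in `M`. -/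
noncomputable def partCount (A M : Set ℕ) (n : ℕ) : ℕ :=
  {m : A →₀ ℕ | IsPartition A M n m}.ncard

/-- `f` has polynomial growth: `f n ≤ n ^ c` for all large `n`, for some real `c > 0`. -/
def PolynomialGrowth (f : ℕ → ℕ) : Prop :=
  ∃ c : ℝ, 0 < c ∧ ∀ᶠ n : ℕ in atTop, (f n : ℝ) ≤ (n : ℝ) ^ c

/-- The set `{k! : k ≥ 1}`. -/
def factorials : Set ℕ := {a | ∃ k : ℕ, 1 ≤ k ∧ a = k !}

/-- The multiplicity set used in the proof. -/
def multSet : Set ℕ :=
  {m | ∃ H k s t : ℕ, k ≤ H ∧ s ≤ H ∧ t ≤ 2 * H ∧ m = 2 ^ H + s + t * (k + 1).ascFactorial H}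

/-- the part `(j+1)!` as an element of `factorials` -/
def part (j : ℕ) : factorials := ⟨(j + 1)!, j + 1, by omega, rfl⟩

lemma part_injective : Function.Injective part := by
  intro i j h
  have h' : (i + 1)! = (j + 1)! := congrArg Subtype.val h
  rcases lt_trichotomy i j with hlt | heq | hgt
  · have := (Nat.factorial_lt (n := i + 1) (m := j + 1) (by omega)).2 (by omega)
    omega
  · exact heq
  · have := (Nat.factorial_lt (n := j + 1) (m := i + 1) (by omega)).2 (by omega)
    omega

lemma exists_part (a : factorials) : ∃ j, a = part j := by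
  obtain ⟨a, k, hk, rfl⟩ := a
  refine ⟨k - 1, ?_⟩
  apply Subtype.ext
  show k ! = (k - 1 + 1)!
  rw [Nat.sub_add_cancel hk]

/-- Factorial base expansion. -/
lemma factorial_digits (N : ℕ) : ∀ n < (N + 1)!, ∃ d : ℕ → ℕ, (∀ i, d i ≤ i) ∧
    n = ∑ i ∈ range (N + 1), d i * i ! := by
  induction N with
  | zero =>
    intro n hn
    refine ⟨fun _ => 0, fun i => Nat.zero_le i, ?_⟩
    simp at hn
    simp [hn]
  | succ N ih =>
    intro n hn
    have hpos : 0 < (N + 1)! := Nat.factorial_pos _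
    obtain ⟨d, hd, hsum⟩ := ih (n % (N + 1)!) (Nat.mod_lt _ hpos)
    have hq : n / (N + 1)! ≤ N + 1 := by
      have : n / (N + 1)! < N + 2 := by
        rw [Nat.div_lt_iff_lt_mul hpos]
        rw [Nat.factorial_succ (N + 1)] at hn
        exact hn
      omega
    refine ⟨fun i => if i = N + 1 then n / (N + 1)! else d i, ?_, ?_⟩
    · intro i
      by_cases hi : i = N + 1
      · subst hi; simpa using hq
      · simpa [hi] using hd i
    · rw [sum_range_succ]
      have h1 : ∑ i ∈ range (N + 1), (if i = N + 1 then n / (N + 1)! else d i) * i ! =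
          ∑ i ∈ range (N + 1), d i * i ! := by
        apply sum_congr rfl
        intro i hi
        have : i ≠ N + 1 := by
          have := mem_range.1 hi
          omega
        simp [this]
      rw [h1, ← hsum]
      simp only [if_true]
      exact (Nat.mod_add_div' n _).symm

lemma sum_factorial_le (H : ℕ) : ∑ j ∈ range H, (j + 1)! ≤ 2 * H ! := by
  induction H with
  | zero => simp
  | succ H ih =>
    rw [sum_range_succ]
    rcases Nat.eq_zero_or_pos H with h0 | h0
    · subst h0; simp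
    · have h2 : 2 * H ! ≤ (H + 1)! := by
        rw [Nat.factorial_succ]
        exact Nat.mul_le_mul_right _ (by omega)
      omega

lemma pow_mul_factorial_le (h : ℕ) (hh : 3 ≤ h) : 2 ^ (h + 1) * (2 * (h + 1)!) ≤ (2 * h + 1)! := by
  induction h, hh using Nat.le_induction with
  | base => decide
  | succ h hh ih =>
    have e1 : (2 * (h + 1) + 1)! = (2 * h + 3) * ((2 * h + 2) * (2 * h + 1)!) := by
      have : 2 * (h + 1) + 1 = (2 * h + 1) + 1 + 1 := by ring
      rw [this, Nat.factorial_succ, Nat.factorial_succ]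
    have e2 : 2 ^ (h + 1 + 1) * (2 * (h + 1 + 1)!) =
        (2 * (h + 2)) * (2 ^ (h + 1) * (2 * (h + 1)!)) := by
      rw [Nat.factorial_succ (h + 1), pow_succ]; ring
    rw [e1, e2]
    calc (2 * (h + 2)) * (2 ^ (h + 1) * (2 * (h + 1)!))
        ≤ (2 * (h + 2)) * (2 * h + 1)! := Nat.mul_le_mul_left _ ih
      _ ≤ ((2 * h + 3) * (2 * h + 2)) * (2 * h + 1)! := by
          apply Nat.mul_le_mul_right
          nlinarith
      _ = _ := by ring

lemma exists_level (n : ℕ) (hn : 5040 ≤ n) :
    ∃ h, 3 ≤ h ∧ (2 * h + 1)! ≤ n ∧ n < (2 * h + 3)! := by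
  have hex : ∃ h, n < (2 * h + 3)! := by
    refine ⟨n, lt_of_lt_of_le ?_ (Nat.self_le_factorial (2 * n + 3))⟩
    omega
  classical
  obtain ⟨h, hh, hmin⟩ : ∃ h, n < (2 * h + 3)! ∧ ∀ m < h, ¬ n < (2 * m + 3)! :=
    ⟨Nat.find hex, Nat.find_spec hex, fun m hm => Nat.find_min hex hm⟩
  have h3 : 3 ≤ h := by
    by_contra hlt
    push Not at hlt
    have h7 : (2 * h + 3)! ≤ 7 ! := Nat.factorial_le (by omega)
    have : 7 ! = 5040 := by decide
    omega
  refine ⟨h, h3, ?_, hh⟩
  rcases Nat.eq_or_lt_of_le h3 with h3' | h3'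
  · subst h3'
    have : (2 * 3 + 1)! = 5040 := by decide
    omega
  · have := hmin (h - 1) (by omega)
    have e : 2 * (h - 1) + 3 = 2 * h + 1 := by omega
    rw [e] at this
    omega

/-- Every large `n` is a sum of `(j+1)!`, `j < H`, with multiplicities in `multSet`. -/
lemma exists_mult (n : ℕ) (hn : 5040 ≤ n) : ∃ H : ℕ, ∃ m : ℕ → ℕ, (∀ j < H, m j ∈ multSet) ∧
    n = ∑ j ∈ range H, m j * (j + 1)! := by
  obtain ⟨h, h3, hlo, hhi⟩ := exists_level n hn
  set H := h + 1 with hH
  have hS : 2 ^ H * ∑ j ∈ range H, (j + 1)! ≤ n := by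
    calc 2 ^ H * ∑ j ∈ range H, (j + 1)! ≤ 2 ^ H * (2 * H !) :=
          Nat.mul_le_mul_left _ (sum_factorial_le H)
      _ ≤ (2 * h + 1)! := pow_mul_factorial_le h h3
      _ ≤ n := hlo
  obtain ⟨r, hr⟩ := Nat.exists_eq_add_of_le hS
  have hrlt : r < (2 * H + 1)! := by
    have e : 2 * H + 1 = 2 * h + 3 := by omega
    rw [e]; omega
  obtain ⟨d, hd, hsum⟩ := factorial_digits (2 * H) r hrlt
  refine ⟨H, fun j => 2 ^ H + d (j + 1) + d (H + 1 + j) * (j + 1 + 1).ascFactorial H, ?_, ?_⟩
  · intro j hj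
    refine ⟨H, j + 1, d (j + 1), d (H + 1 + j), by omega, (hd _).trans (by omega),
      (hd _).trans (by omega), rfl⟩
  · have hd0 : d 0 = 0 := Nat.le_zero.1 (hd 0)
    have e : 2 * H + 1 = (H + 1) + H := by ring
    rw [e, sum_range_add, sum_range_succ'] at hsum
    rw [hr, hsum, mul_sum, hd0, zero_mul, add_zero, ← sum_add_distrib, ← sum_add_distrib]
    apply sum_congr rfl
    intro j _
    have hf : (H + 1 + j)! = (j + 1)! * (j + 1 + 1).ascFactorial H := by
      rw [Nat.factorial_mul_ascFactorial]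
      congr 1
      ring
    rw [hf]
    ring

lemma exists_partition (n : ℕ) (hn : 5040 ≤ n) :
    ∃ m : factorials →₀ ℕ, IsPartition factorials multSet n m := by
  obtain ⟨H, m, hm, hsum⟩ := exists_mult n hn
  refine ⟨∑ j ∈ range H, Finsupp.single (part j) (m j), ?_, ?_⟩
  · intro a ha
    rw [Finsupp.finsetSum_apply] at ha ⊢
    obtain ⟨j, hj, hne⟩ := exists_ne_zero_of_sum_ne_zero ha
    have haj : part j = a := by
      by_contra hne'
      exact hne (Finsupp.single_eq_of_ne (Ne.symm hne'))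
    subst haj
    rw [sum_eq_single j]
    · rw [Finsupp.single_eq_same]
      exact hm j (mem_range.1 hj)
    · intro i _ hij
      apply Finsupp.single_eq_of_ne
      intro h
      exact hij (part_injective h.symm)
    · intro h
      exact absurd hj h
  · have key : ∀ f : factorials →₀ ℕ, (f.sum fun a k => k * (a : ℕ)) =
        Finsupp.linearCombination ℕ (fun a : factorials => (a : ℕ)) f := by
      intro f
      rw [Finsupp.linearCombination_apply]
      rfl
    rw [key, map_sum, hsum]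
    apply sum_congr rfl
    intro j _
    rw [Finsupp.linearCombination_single]
    rfl

/-- finite set containing the elements of `multSet` below `2 ^ L` -/
def blockSet (L : ℕ) : Finset ℕ :=
  (range L).biUnion fun H => ((range (H + 1)) ×ˢ (range (H + 1)) ×ˢ (range (2 * H + 1))).image
    fun q => 2 ^ H + q.2.1 + q.2.2 * (q.1 + 1).ascFactorial H

lemma mem_blockSet {L m : ℕ} (hm : m ∈ multSet) (hlt : m < 2 ^ L) : m ∈ blockSet L := by
  obtain ⟨H, k, s, t, hk, hs, ht, rfl⟩ := hm
  have hHL : H < L := by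
    by_contra hge
    push Not at hge
    have := Nat.pow_le_pow_right (n := 2) (by norm_num) hge
    have h2 : 2 ^ H ≤ 2 ^ H + s + t * (k + 1).ascFactorial H := by
      rw [add_assoc]; exact Nat.le_add_right _ _
    omega
  unfold blockSet
  rw [mem_biUnion]
  refine ⟨H, mem_range.2 hHL, ?_⟩
  rw [mem_image]
  refine ⟨(k, s, t), ?_, rfl⟩
  simp only [mem_product, mem_range]
  omega

lemma card_blockSet (L : ℕ) : (blockSet L).card ≤ 2 * L ^ 4 := by
  unfold blockSet
  refine card_biUnion_le.trans ?_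
  have : ∀ H ∈ range L, (((range (H + 1)) ×ˢ (range (H + 1)) ×ˢ (range (2 * H + 1))).image
      fun q : ℕ × ℕ × ℕ => 2 ^ H + q.2.1 + q.2.2 * (q.1 + 1).ascFactorial H).card ≤ 2 * L ^ 3 := by
    intro H hH
    have hH' := mem_range.1 hH
    refine card_image_le.trans ?_
    rw [card_product, card_product, card_range, card_range]
    calc (H + 1) * ((H + 1) * (2 * H + 1)) ≤ L * (L * (2 * L)) := by
          apply Nat.mul_le_mul (by omega)
          apply Nat.mul_le_mul (by omega) (by omega)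
      _ = 2 * L ^ 3 := by ring
  refine (sum_le_sum this).trans ?_
  rw [sum_const, card_range, smul_eq_mul]
  apply le_of_eq
  ring

lemma factorial_le_two_pow (K : ℕ) : (K + 1)! ≤ 2 ^ (K ^ 2) := by
  induction K with
  | zero => simp
  | succ K ih =>
    rw [Nat.factorial_succ]
    have h1 : K + 1 + 1 ≤ 2 ^ (2 * K + 1) := by
      have h2 : K + 1 < 2 ^ (K + 1) := Nat.lt_two_pow_self
      have h3 : 2 ^ (K + 1) ≤ 2 ^ (2 * K + 1) := Nat.pow_le_pow_right (by norm_num) (by omega)
      omega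
    calc (K + 1 + 1) * (K + 1)! ≤ 2 ^ (2 * K + 1) * 2 ^ (K ^ 2) := Nat.mul_le_mul h1 ih
      _ = 2 ^ ((K + 1) ^ 2) := by
          rw [← pow_add]; congr 1; ring

/-- A partition of `n < (K+1)!` is determined by its multiplicities at `1!, …, K!`, which lie in
an explicit finite set. -/
lemma partition_bound (n K : ℕ) (hn : n < (K + 1)!) :
    {m : factorials →₀ ℕ | IsPartition factorials multSet n m}.Finite ∧
    partCount factorials multSet n ≤ (2 * (K ^ 2) ^ 4 + 1) ^ K := by
  classical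
  set P := {m : factorials →₀ ℕ | IsPartition factorials multSet n m} with hP
  have hle : ∀ m ∈ P, ∀ a : factorials, m a * (a : ℕ) ≤ n := by
    intro m hm a
    obtain ⟨_, hs⟩ := hm
    rw [← hs]
    by_cases ha : a ∈ m.support
    · exact single_le_sum (f := fun a : factorials => m a * (a : ℕ))
        (fun _ _ => Nat.zero_le _) ha
    · rw [Finsupp.notMem_support_iff.1 ha]
      simp
  have hzero : ∀ m ∈ P, ∀ j, K ≤ j → m (part j) = 0 := by
    intro m hm j hj
    by_contra hne
    have h1 := hle m hm (part j)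
    have h2 : (K + 1)! ≤ (j + 1)! := Nat.factorial_le (by omega)
    have h3 : (j + 1)! ≤ m (part j) * (j + 1)! := Nat.le_mul_of_pos_left _ (Nat.pos_of_ne_zero hne)
    have h4 : ((part j : factorials) : ℕ) = (j + 1)! := rfl
    rw [h4] at h1
    omega
  set F : Finset ℕ := insert 0 (blockSet (K ^ 2)) with hF
  set Φ : (factorials →₀ ℕ) → (Fin K → ℕ) := fun m k => m (part k) with hΦ
  have hinj : Set.InjOn Φ P := by
    intro m hm m' hm' heq
    ext a
    obtain ⟨j, rfl⟩ := exists_part a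
    by_cases hj : j < K
    · exact congrFun heq ⟨j, hj⟩
    · rw [hzero m hm j (by omega), hzero m' hm' j (by omega)]
  have hmaps : ∀ m ∈ P, Φ m ∈ (Fintype.piFinset fun _ : Fin K => F) := by
    intro m hm
    rw [Fintype.mem_piFinset]
    intro k
    rw [hF, mem_insert]
    by_cases hz : m (part k) = 0
    · left; exact hz
    · right
      apply mem_blockSet (hm.1 _ hz)
      have h1 := hle m hm (part k)
      have h2 : m (part k) ≤ m (part k) * ((part (k : ℕ) : factorials) : ℕ) :=
        Nat.le_mul_of_pos_right _ (Nat.factorial_pos _)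
      have h3 := factorial_le_two_pow K
      show m (part k) < 2 ^ K ^ 2
      omega
  have hmaps' : Set.MapsTo Φ P (↑(Fintype.piFinset fun _ : Fin K => F) : Set (Fin K → ℕ)) :=
    fun m hm => Finset.mem_coe.2 (hmaps m hm)
  have hfin : P.Finite :=
    Set.Finite.of_injOn hmaps' hinj (Finset.finite_toSet _)
  refine ⟨hfin, ?_⟩
  have hcard : P.ncard ≤ (↑(Fintype.piFinset fun _ : Fin K => F) : Set (Fin K → ℕ)).ncard :=
    Set.ncard_le_ncard_of_injOn Φ hmaps' hinj (Finset.finite_toSet _)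
  rw [Set.ncard_coe_finset, Fintype.card_piFinset] at hcard
  simp only [prod_const, card_univ, Fintype.card_fin] at hcard
  refine hcard.trans (Nat.pow_le_pow_left ?_ K)
  refine (card_insert_le _ _).trans ?_
  exact Nat.add_le_add_right (card_blockSet _) 1

lemma pow_self_le (K : ℕ) : K ^ K ≤ K ! * 3 ^ K := by
  have h1 : (K : ℝ) ^ K / (K ! : ℝ) ≤ Real.exp K :=
    Real.pow_div_factorial_le_exp (K : ℝ) (Nat.cast_nonneg K) K
  have h2 : Real.exp (K : ℝ) ≤ 3 ^ K := by
    have : Real.exp (K : ℝ) = Real.exp 1 ^ K := by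
      rw [← Real.exp_nat_mul, mul_one]
    rw [this]
    exact pow_le_pow_left₀ (Real.exp_pos 1).le Real.exp_one_lt_three.le K
  have hpos : (0 : ℝ) < (K ! : ℝ) := by exact_mod_cast Nat.factorial_pos K
  rw [div_le_iff₀ hpos] at h1
  have h3 : (K : ℝ) ^ K ≤ (K ! : ℝ) * 3 ^ K := by
    calc (K : ℝ) ^ K ≤ Real.exp K * (K ! : ℝ) := h1
      _ ≤ 3 ^ K * (K ! : ℝ) := mul_le_mul_of_nonneg_right h2 hpos.le
      _ = _ := by ring
  exact_mod_cast h3

lemma three_pow_le (K : ℕ) (hK : 7 ≤ K) : 3 ^ K ≤ K ! := by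
  induction K, hK using Nat.le_induction with
  | base => decide
  | succ K hK ih =>
    rw [Nat.factorial_succ, pow_succ, mul_comm]
    exact Nat.mul_le_mul (by omega) ih

lemma count_le_factorial_pow (K : ℕ) (hK : 7 ≤ K) : (2 * (K ^ 2) ^ 4 + 1) ^ K ≤ (K !) ^ 17 := by
  have h0 : 1 ≤ (K ^ 2) ^ 4 := Nat.one_le_pow _ _ (by positivity)
  have h1 : 2 * (K ^ 2) ^ 4 + 1 ≤ 3 * (K ^ 2) ^ 4 := by omega
  calc (2 * (K ^ 2) ^ 4 + 1) ^ K ≤ (3 * (K ^ 2) ^ 4) ^ K := Nat.pow_le_pow_left h1 K
    _ = 3 ^ K * (K ^ K) ^ 8 := by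
        rw [mul_pow, ← pow_mul, ← pow_mul, ← pow_mul]
        ring_nf
    _ ≤ 3 ^ K * (K ! * 3 ^ K) ^ 8 :=
        Nat.mul_le_mul_left _ (Nat.pow_le_pow_left (pow_self_le K) 8)
    _ = (K !) ^ 8 * (3 ^ K) ^ 9 := by ring
    _ ≤ (K !) ^ 8 * (K !) ^ 9 :=
        Nat.mul_le_mul_left _ (Nat.pow_le_pow_left (three_pow_le K hK) 9)
    _ = (K !) ^ 17 := by ring

lemma exists_factorial_bracket (n : ℕ) (hn : 5040 ≤ n) : ∃ K, 7 ≤ K ∧ K ! ≤ n ∧ n < (K + 1)! := by
  have hex : ∃ K, n < (K + 1)! := by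
    refine ⟨n, lt_of_lt_of_le ?_ (Nat.self_le_factorial (n + 1))⟩
    omega
  classical
  obtain ⟨K, hK, hmin⟩ : ∃ K, n < (K + 1)! ∧ ∀ m < K, ¬ n < (m + 1)! :=
    ⟨Nat.find hex, Nat.find_spec hex, fun m hm => Nat.find_min hex hm⟩
  have h7 : 7 ≤ K := by
    by_contra hlt
    push Not at hlt
    have h : (K + 1)! ≤ 7 ! := Nat.factorial_le (by omega)
    have : 7 ! = 5040 := by decide
    omega
  refine ⟨K, h7, ?_, hK⟩
  have := hmin (K - 1) (by omega)
  have e : K - 1 + 1 = K := by omega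
  rw [e] at this
  omega

lemma partCount_le (n : ℕ) (hn : 5040 ≤ n) : partCount factorials multSet n ≤ n ^ 17 := by
  obtain ⟨K, hK7, hKn, hnK⟩ := exists_factorial_bracket n hn
  exact ((partition_bound n K hnK).2.trans (count_le_factorial_pow K hK7)).trans
    (Nat.pow_le_pow_left hKn 17)

lemma one_le_partCount (n : ℕ) (hn : 5040 ≤ n) : 1 ≤ partCount factorials multSet n := by
  obtain ⟨K, _, _, hnK⟩ := exists_factorial_bracket n hn
  have hfin := (partition_bound n K hnK).1
  obtain ⟨m, hm⟩ := exists_partition n hn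
  exact (Set.ncard_pos hfin).2 ⟨m, hm⟩

lemma multSet_pos : ∀ m ∈ multSet, 0 < m := by
  rintro m ⟨H, k, s, t, _, _, _, rfl⟩
  have : 0 < 2 ^ H := by positivity
  omega

lemma multSet_infinite : multSet.Infinite := by
  apply Set.infinite_of_injective_forall_mem (f := fun H : ℕ => 2 ^ H)
  · exact Nat.pow_right_injective le_rfl
  · intro H
    exact ⟨H, 0, 0, 0, by omega, by omega, by omega, by simp⟩

/-- For `A = {k! : k ≥ 1}` there is an infinite set `M` of positive integers such that
`p_{A,M}(n) ≥ 1` for all sufficiently large `n` and `p_{A,M}` has polynomial growth. -/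
theorem result : ∃ M : Set ℕ, M.Infinite ∧ (∀ m ∈ M, 0 < m) ∧
    (∀ᶠ n : ℕ in atTop, 1 ≤ partCount factorials M n) ∧
    PolynomialGrowth (partCount factorials M) := by
  refine ⟨multSet, multSet_infinite, multSet_pos, ?_, 17, by norm_num, ?_⟩
  · filter_upwards [eventually_ge_atTop 5040] with n hn using one_le_partCount n hn
  · filter_upwards [eventually_ge_atTop 5040] with n hn
    have := partCount_le n hn
    have h : (partCount factorials multSet n : ℝ) ≤ (n : ℝ) ^ (17 : ℕ) := by exact_mod_cast this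
    have e : (n : ℝ) ^ (17 : ℝ) = (n : ℝ) ^ (17 : ℕ) := by
      rw [← Real.rpow_natCast]; norm_num
    rw [e]
    exact h

end Pool.Agent.Results.MP_edde63_nt.FactorialParts
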